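import Pool.Agent.TH192.MT.IdJet

set_option autoImplicit false

/-! # The motivic monodromy conjecture for forms over determinantal ideals

Let `x` be the generic matrix of one of the three spaces `S` of matrices: all `m × n` matrices, the
symmetric `n × n` matrices, the skew symmetric `n × n` matrices (`MSpace`). For `t < T` let
`F_t = ∑_j y_{t,j} M_j(x)`, where the `M_j` are the `p t`-minors of `x` (the Pfaffians of size
`2 (p t)` in the skew symmetric case), `p t < min (m, n)`, `p t < n`, or `2 (p t) + 1 < n`
(`Small`), and the `y_{t,j}` are further variables, separate for each `t`. Let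
`f = ∏ t, F_t ^ a t`, `a t > 0` (`detForm`, with integral coefficients).

The motivic zeta function `Z_f^mot(T) = ∑_{d ≥ 0} [𝒳_{d,1}] 𝕃 ^ (-m d) T ^ d` of the problem,
`𝒳_{d,1}` the `d`-jets `φ` of the whole affine space with `f(φ) = t ^ d mod t ^ (d + 1)`, is
`zetaM f Set.univ {1}`, in the Grothendieck ring of varieties over the field `k`, localised at
`𝕃`. The field `k` is arbitrary of characteristic `0`, in particular any subfield of `ℂ`.

Everything comes from the starting library `Pool.Agent.TH192`. No resolution is used: the jets are
divided by the orders of the ideals of the minors; where an entry (or a principal minor of size `1`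
or `2`) is a unit, the Schur complement reduces to a smaller matrix; where `x(0) = 0` one divides
by `t`, which gives the denominators `1 - 𝕃 ^ (-ν_d) T ^ (N_d)`, `ν_d` the codimension of the matrices
of rank `≤ d` (`≤ 2 d`), `N_d = ∑ t, a t max (p t - d, 0)`; the linear conditions on the jets of `y`
give the denominators `1 - 𝕃 ^ (-1) T ^ (a t)`. The roots come from a functional equation for the
product of the powers of the ideals of minors, whose Rees divisors are the divisors over the rank
loci. -/

namespace Pool.Agent.Results.MP_432c1b_ag.DeterminantalForms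

open MvPolynomial Pool.Agent.H628R4.TP Pool.Agent.TH192.DT Pool.Agent.TH192.MT
  Pool.Agent.W428.MOT

/-- The motivic zeta functions of `f = ∏ t, F_t ^ a t` over the field `k`, for the jets with origin in
a constructible set `W` (`W = Set.univ` is the one of the problem), lie in
`𝓜_k[T, 1 / (1 - 𝕃 ^ c T ^ e)]`, `(c, e)` in `formPairs S p a`. -/
def ZetaIn (S : MSpace) {T : ℕ} (p a : Fin T → ℕ) (k : Type) [Field k] : Prop :=
  ∀ W : Set (Pt k ((Σ t, S.Idx (p t)) ⊕ S.Var)), Constr W →
    zetaM (map (Int.castRingHom k) (detForm S p a)) W {1} ∈
      ratRing k (formPairs S p a : Set (ℤ × ℤ))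

/-- **The motivic monodromy conjecture for `f = ∏ t, F_t ^ a t`**, `F_t` the forms with the minors
of size `p t` of a generic, symmetric or skew symmetric matrix as coefficients. The finite set
`formPairs S p a` of the pairs `(-ν_d, N_d)` and `(-1, a t)` of a negative and a positive integer has
the two properties of Q1:

1. for every field `k` of characteristic `0` the motivic zeta function `Z_f^mot(T)`, as in the
   problem, lies in `𝓜_k[T, 1 / (1 - 𝕃 ^ c T ^ e)]`, `(c, e)` in `formPairs S p a`; the same holds if
   only the jets with origin in an arbitrary constructible set `W` are counted;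
2. for the pairs `(c, e)` in it, `c / e` is a root of every `b` with
   `b(s) f ^ s = P(s) f ^ (s + 1)`, in particular of the Bernstein-Sato polynomial of `f`; so by the
   theorem of Malgrange and Kashiwara (which is not formalised) `exp(2 π i c / e)` is a monodromy
   eigenvalue of `f` at a point of `{f = 0}`. -/
theorem result (S : MSpace) (T : ℕ) (p a : Fin T → ℕ) (hp : ∀ t, S.Small (p t))
    (ha : ∀ t, 0 < a t) :
    (∀ (k : Type) [Field k] [CharZero k], ZetaIn S p a k) ∧
    (∀ q ∈ formPairs S p a, q.1 < 0 ∧ 0 < q.2 ∧
      ∀ b : Polynomial ℂ, IsBFunction (map (Int.castRingHom ℂ) (detForm S p a)) b →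
        b.eval ((q.1 : ℂ) / q.2) = 0) :=
  ⟨fun _ _ _ _ hW => zetaM_mem S T p a hp ha hW good_one,
    fun q hq => ⟨(form_roots S T p a hp ha q hq).1, (form_roots S T p a hp ha q hq).2.1,
      (form_roots S T p a hp ha q hq).2.2.1⟩⟩

end Pool.Agent.Results.MP_432c1b_ag.DeterminantalForms
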