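import Mathlib
import Pool.Agent.Y228.GN.Nv
import Pool.Agent.Y228.ND4.H1
import Pool.Agent.Y229.CF.OfLoc

/-!
# The motivic monodromy conjecture for nondegenerate polynomials, conditions on the vertices

Let `k` be a field, `k ⊂ ℂ`, and let `f = ∑_j c_j x ^ (v j) ∈ k[x_1, …, x_n]`, `f(0) = 0`, `c_j ≠ 0`, with the Newton
polyhedron `Γ = conv {v j} + ℝ_{≥ 0} ^ n` at the origin. The number of variables is arbitrary, the coefficients
need not be generic, and the singularities need not be isolated.

For a facet of `Γ` with primitive inner normal vector `a ∈ ℕ ^ n` let `N_a = min ⟨a, ·⟩ > 0` be its order and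
`-|a| / N_a` its candidate pole. Every candidate pole is assumed to be an integer, or to agree modulo integers
with the candidate pole of a facet which contains a suitable simplex which is not of type `B1`, or to satisfy
the following: at every vertex, the facets of the candidate pole through this vertex are simplices or
`B1`-facets in a common direction, which may depend on the vertex. Only the vertices of the Newton polyhedron
count in the third case. In particular all simplicial Newton polyhedra are allowed, in any number of variables.
Then the motivic monodromy conjecture holds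

* for `f` at the origin, i.e. for the jets with origin `0`, if `f` is nondegenerate with respect to the
COMPACT faces of `Γ` (the usual nondegeneracy of Kouchnirenko and Varchenko);
* for `f` (Q1, all jets) if moreover `f` is homogeneous: nondegenerate forms of arbitrary degree in any number
of variables;
* for `f` (Q1, and for the jets with origin in any constructible set `W`) if `f` is nondegenerate for all the
faces of `Γ`, compact or not, and satisfies the condition `GlobW` on the terms of `f` which are not vertices of
`Γ`: for every coordinate subspace `{x_i = 0, i ∈ J}` different from the origin on which `f` vanishes, no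
exponent which is not a vertex has the same coordinates in `J` as a vertex with a coordinate `1` in `J`. It is
empty for convenient `f`, and if all the exponents of `f` are vertices of `Γ`.

The motivic zeta function lies in the ring generated by `T` and finitely many `1 / (1 - 𝕃 ^ a T ^ b)` with
`a < 0 < b` such that `a / b - i` is a root of the local Bernstein-Sato polynomial `b_{f,0}`, hence of `b_f`, for an
integer `i`; by the theorem of Malgrange and Kashiwara `exp(2 π i a / b)` is an eigenvalue of the monodromy of
`f` at points of `{f = 0}` arbitrarily near to `0`.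

The starting result `NondegenerateSimplicialOrB1` for this problem needs nondegeneracy for all the faces of the
Newton polytope (also those at infinity), conditions on all the exponents in the relevant facets and
not only on the vertices, and gives only roots of the global polynomial `b_f`; `NondegenerateFourGlobal` is
the case `n = 4` without condition on the facets. The starting results `MP_b48657_ag.NondegenerateVertices` and
`MP_9321be_ag.CompactFacesVertices` are the corresponding theorems for the equivariant and for the
naive local motivic zeta function.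

The proof combines theorems of the library of the starting files (projects CF and GN of helpers 229, 228 and
others): `Pool.Agent.Y229.CF.nd_motX'`, `Pool.Agent.Y228.GN.nvG`, `Pool.Agent.Y228.ND4.global_of_local`.
-/

set_option autoImplicit false

namespace Pool.Agent.Results.MP_432c1b_ag.NondegenerateVerticesGlobal

open MvPolynomial Pool.Agent.W428.MOT Pool.Agent.W375.MG Pool.Agent.TH216.HD
open Pool.Agent.TH216.HDNL
open Pool.Agent.W425.ND (spa)
open Pool.Agent.Y229.CF (NondegC)
open Pool.Agent.Y228.GN (NondegP GlobW nvG)

theorem hom_sum {K : Type} [Field K] {n r d : ℕ} (v : Fin r → Fin n → ℕ) (c : Fin r → K)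
    (hd : ∀ j, ∑ i, v j i = d) : (spa v c).IsHomogeneous d := by
  unfold spa
  refine IsHomogeneous.sum _ _ _ fun j _ => ?_
  have h1 : (∏ i, X i ^ v j i : MvPolynomial (Fin n) K).IsHomogeneous (∑ i, v j i) :=
    IsHomogeneous.prod _ _ _ fun i _ => by
      have h2 := (isHomogeneous_X K i).pow (v j i)
      rwa [one_mul] at h2
  rw [hd] at h1
  have h2 := (isHomogeneous_C (Fin n) (c j)).mul h1
  rwa [zero_add] at h2

/-- `a < 0 < b` for all `(a, b) ∈ S`, and `a / b - i` is a root of `b` for some integer `i`, for every
polynomial `b` with `IsLocalBFunction f b`, `f = ∑_j c_j x ^ (v j)`. -/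
def RootsMod {k : Type} [Field k] [Algebra k ℂ] {n r : ℕ} (v : Fin r → Fin n → ℕ) (c : Fin r → k)
    (S : Finset (ℤ × ℤ)) : Prop :=
  ∀ p ∈ S, p.1 < 0 ∧ 0 < p.2 ∧ ∀ b : Polynomial ℂ,
    Pool.Agent.H628R4.TP.IsLocalBFunction (spa v (fun j => algebraMap k ℂ (c j))) b →
      ∃ i : ℤ, b.eval ((p.1 : ℂ) / p.2 - i) = 0

/-- The motivic zeta function over `K ⊃ k` of `f = ∑_j c_j x ^ (v j)`, for the jets with origin in `W`, is
in the ring generated by `T` and the `1 / (1 - 𝕃 ^ a T ^ b)`, `(a, b) ∈ S`. -/
def ZetaIn {k : Type} [Field k] (K : Type) [Field K] [Algebra k K] {n r : ℕ}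
    (v : Fin r → Fin n → ℕ) (c : Fin r → k) (S : Finset (ℤ × ℤ)) (W : Set (Pt K (Fin n))) : Prop :=
  zetaW (spa v (fun j => algebraMap k K (c j))) W ∈ ratRing K S

/-- **The motivic monodromy conjecture for the polynomials `f = ∑_j c_j x ^ (v j)` over `k ⊂ ℂ` which are
nondegenerate with respect to the compact faces of their Newton polyhedron and satisfy `HypVL`: at the origin,
and at all points if `f` is homogeneous or nondegenerate for all the faces with the condition `GlobW`.**

`spa v c` is the polynomial `f = ∑_j c_j x ^ (v j)`. `NondegC v c` says that for every `w ∈ ℝ ^ n` with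
positive coordinates the face polynomial of `f` (the sum of the terms `c_j x ^ (v j)` on which
`⟨w, v j⟩` is minimal) and its derivatives `x_i ∂_i` have no common zero in `(ℂ \ 0) ^ n`; `NondegP v c`
says this for every `w` with nonnegative coordinates. `V` is a set of exponents of `f` such that all
the exponents of `f` are in `conv {v j, j ∈ V} + ℝ_{≥ 0} ^ n` (`Spans v V`), for instance the set of
the vertices of the Newton polyhedron. `GlobW v V` says the following for every coordinate subspace
`{x_i = 0, i ∈ J}`, except the origin, on which `f` vanishes: if a `v j`, `j ∈ V`, has a coordinate `1` in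
`J`, then no `v l`, `l ∉ V`, has the same coordinates in `J` as `v j`.

`HypVL v V` says that for every ray `a` of the normal fan of the Newton polyhedron (`IsRay v a`)
with `N_a := ordA v a = min_j ⟨a, v j⟩ > 0` one of the following holds:
* `N_a` divides `|a|` (the candidate pole is an integer);
* `|a| / N_a - |a'| / N_{a'} ∈ ℤ` for some `a' ∈ ℕ ^ n` with `N_{a'} > 0` and `NonB1 v True a'`: there is a
  set `J` of `#{i | a' i ≠ 0}` elements with `⟨a', v j⟩ = N_{a'}` for `j ∈ J` such that the vectors
  `(v j i)_{a' i ≠ 0}`, `j ∈ J`, are linearly independent, such that no variable `x_i` with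
  `a' i ≠ 0` occurs in exactly one of the monomials `x ^ (v j)`, `j ∈ J`, and there with exponent `1`,
  and such that (a condition only if some `a' i = 0`) for all `l` with `⟨a', v l⟩ = N_{a'}`, if `v l`
  agrees with `∑_{j ∈ J} c_j (v j)` in the coordinates `i` with `a' i ≠ 0`, then
  `∑_j c_j s(v j) ≤ s(v l)`, `s(w) = ∑_{a' i = 0} w_i`;
* `LocVL v V σ` for `σ = lev v a = |a| / N_a`: for every `j1 ∈ V` there is a variable `x_i` such that
  each of the rays `a'` with `N_{a'} > 0`, `|a'| / N_{a'} = σ` and `⟨a', v j1⟩ = N_{a'}` (the facets
  through `v j1`) satisfies one of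
  - its facet is a simplex (`SimpVL v V a'`): the vectors `(v j i)_{a' i ≠ 0}`, for the `j ∈ V` with
    `⟨a', v j⟩ = N_{a'}`, are linearly independent;
  - it is B1 in the direction `i` (`B1VL v V i a'`): `a' i ≠ 0`, and exactly one of the monomials
    `x ^ (v j)`, `j ∈ V`, with `⟨a', v j⟩ = N_{a'}` is divisible by `x_i`, and it is not divisible by
    `x_i ^ 2`.

`IsLocalBFunction f b` says that `b(s) f ^ s = P(s) f ^ (s + 1)` for a differential operator `P(s)`,
polynomial in `s`, with (formal, in particular convergent or polynomial) power series at the origin as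
coefficients; the Bernstein-Sato polynomials `b_{f,0}` and `b_f` are among these polynomials `b`.
This is the condition `RootsMod v c S` on `S`.
`zetaW f W` is the series `∑_{d ≥ 0} [X_{d,1,W}] 𝕃 ^ (-n d) T ^ d`, where `X_{d,1,W}` is the set of the
jets in the set `X_{d,1}` of the problem with origin in `W`; `zetaW f Set.univ` is the motivic zeta
function of the problem. `ZetaIn K v c S W` says that this series for the polynomial `f` over `K` is in the ring
generated over `𝓜_K` by `T` and the `1 / (1 - 𝕃 ^ a T ^ b)`, `(a, b) ∈ S`. The finite set `S` is the same for all the fields `K` which contain `k` and for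
all `W`. -/
theorem result (k : Type) [Field k] [Algebra k ℂ] {n r : ℕ} (hr : 0 < r)
    (v : Fin r → Fin n → ℕ) (c : Fin r → k) (hv : Function.Injective v) (hv0 : ∀ j, v j ≠ 0)
    (hc : ∀ j, c j ≠ 0) (hnd : NondegC v (fun j => algebraMap k ℂ (c j)))
    (V : Finset (Fin r)) (hV : Spans v V) (hL : HypVL v V) :
    ∃ S : Finset (ℤ × ℤ), RootsMod v c S ∧
      ∀ (K : Type) [Field K] [Algebra k K],
        ZetaIn K v c S {0} ∧
        ((∃ d : ℕ, ∀ j, ∑ i, v j i = d) → ZetaIn K v c S Set.univ) ∧
        (NondegP v (fun j => algebraMap k ℂ (c j)) → GlobW v V →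
          ∀ W : Set (Pt K (Fin n)), Constr W → ZetaIn K v c S W) := by
  unfold RootsMod ZetaIn
  classical
  obtain ⟨S, hS, hz⟩ := Pool.Agent.Y229.CF.nd_motX' hr v hv hv0 c hc hnd V hV hL
  have hS' : ∀ p ∈ S, p.1 < 0 ∧ 0 < p.2 ∧ ∀ b : Polynomial ℂ,
      Pool.Agent.H628R4.TP.IsLocalBFunction (spa v (fun j => algebraMap k ℂ (c j))) b →
        ∃ i : ℤ, b.eval ((p.1 : ℂ) / p.2 - i) = 0 := by
    intro p hp
    refine ⟨(hS p hp).1, (hS p hp).2.1, fun b hb => ?_⟩
    obtain ⟨h1, h2⟩ := Pool.Agent.Y229.CF.of_local' v (by omega) _ hv hv0 hnd b hb
    exact (hS p hp).2.2 b h1 h2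
  have hz' : ∀ (K : Type) [Field K] [Algebra k K],
      zetaW (spa v (fun j => algebraMap k K (c j))) {0} ∈ ratRing K S ∧
      ((∃ d : ℕ, ∀ j, ∑ i, v j i = d) →
        zetaW (spa v (fun j => algebraMap k K (c j))) Set.univ ∈ ratRing K S) := by
    intro K _ _
    have hkc : CharZero k := RingHom.charZero (algebraMap k ℂ)
    have hK : CharZero K := charZero_of_injective_algebraMap (algebraMap k K).injective
    have hW : Constr ({0} : Set (Pt K (Fin n))) := by
      have h1 := Pool.Agent.W425.MM.constr_pt (K := K) (0 : Fin n → K)
      have e : ({fun i => algebraMap K (AlgebraicClosure K) ((0 : Fin n → K) i)} :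
          Set (Pt K (Fin n))) = {0} := by
        congr 1
        funext i
        simp
      rwa [e] at h1
    have h0 : zetaG (spa v (fun j => algebraMap k K (c j))) {0} {1} ∈ ratRing K S :=
      hz K {0} {1} hW good_one (fun z hz i => by
        rw [Set.mem_singleton_iff.1 hz]
        rfl)
    rw [zetaW_eq, zetaW_eq]
    refine ⟨h0, fun ⟨d, hvd⟩ => ?_⟩
    have hd : 0 < d := by
      have h1 := hvd ⟨0, hr⟩
      by_contra h2
      apply hv0 ⟨0, hr⟩
      funext i
      have h3 : v ⟨0, hr⟩ i ≤ ∑ i, v ⟨0, hr⟩ i :=
        Finset.single_le_sum (f := fun i => v ⟨0, hr⟩ i) (fun _ _ => Nat.zero_le _)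
          (Finset.mem_univ i)
      change v ⟨0, hr⟩ i = 0
      omega
    exact Pool.Agent.Y228.ND4.global_of_local hd (hom_sum v _ hvd) good_one hW S
      (fun p hp => (hS p hp).2.1) h0
  by_cases hG : NondegP v (fun j => algebraMap k ℂ (c j)) ∧ GlobW v V
  · obtain ⟨S1, hS1, hz1, -⟩ := nvG hr v hv hv0 c hc hG.1 V hV hL hG.2
    refine ⟨S ∪ S1, fun p hp => ?_, fun K _ _ => ⟨?_, fun h => ?_, fun _ _ W hW => ?_⟩⟩
    · rcases Finset.mem_union.1 hp with hp | hp
      · exact hS' p hp
      · exact hS1 p hp
    · exact Pool.Agent.W375.MG.ratRing_mono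
        (by rw [Finset.coe_union]; exact Set.subset_union_left) (hz' K).1
    · exact Pool.Agent.W375.MG.ratRing_mono
        (by rw [Finset.coe_union]; exact Set.subset_union_left) ((hz' K).2 h)
    · rw [zetaW_eq]
      exact Pool.Agent.W375.MG.ratRing_mono
        (by rw [Finset.coe_union]; exact Set.subset_union_right)
        (hz1 K W {1} hW good_one)
  · exact ⟨S, hS', fun K _ _ => ⟨(hz' K).1, (hz' K).2, fun h1 h2 => absurd ⟨h1, h2⟩ hG⟩⟩

end Pool.Agent.Results.MP_432c1b_ag.NondegenerateVerticesGlobal
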