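import Pool.Agent.W574.MO.Cone

set_option autoImplicit false

/-! # The motivic monodromy conjecture for the hypersurfaces `∑ y_j f_j(x₁, x₂) = 0`

Here the `f_j` are arbitrary polynomials in the two variables `x₁, x₂`, and the `y_j` are further
variables: `F = univ f = ∑ y_j f_j(x₁, x₂)`. The motivic zeta function of the problem,
`Z_F^mot(T) = ∑_{d ≥ 0} [𝒳_{d,1}] L^(-N d) T^d` with `N = 2 + r`, `r = |ι|` the number of the `y_j`, and
`𝒳_{d,1}` the set of the `d`-jets `φ` with `F(φ) = t^d` modulo `t^(d + 1)`, is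
`L^(2 + r) Z_I L⁻¹ / (1 - L⁻¹ T)`, where `Z_I = ∫ T^(ord I) dμ = L⁻² Z'` is the motivic zeta function of
the ideal `I = (f_j)` of `ℂ[x₁, x₂]`, computed by blowing up points of the plane; see `PlaneMot` and
`MotLocal` (in `Pool.Agent.W574.MO.Defs`), and the explanations in `Pool.Agent.W574.MO.FormDefs`.

The proof is in the starting library `Pool.Agent.W574`:

* `functionalEq_of_univ`: a functional equation of `F` gives a functional equation of the ideal
  `(f_j)` with the same `b` (one direction of a theorem of Mustata, 2019);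
* `local_mainM`: if `b(s₀) ≠ 0`, then the contribution of a point to `Z_I` lies in the ring of the
  series whose denominators do not vanish at `s₀`;
* `descent`: over the unique factorization domain `ℤ[L, L⁻¹]`, all denominators which do not
  belong to roots of `b` can be removed at the same time; every contribution of a point comes from
  this ring;
* `curve_root` and `minus_one`: `b(-1/m) = 0` for the multiplicities `m` of the curves in the zero
  locus, and `b(-1) = 0`. -/

namespace Pool.Agent.Results.MP_432c1b_ag.PlaneForms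

open MvPolynomial Pool.Agent.W574.MO Pool.Agent.W574.SM Pool.Agent.W574.HS Pool.Agent.H628R4.TP

/-- `Z` is (of the form of) the series `∑_{d ≥ 0} [X_{d,1}] L^(-N d) T^d` of the polynomial
`F = ∑ y_j f_j(x₁, x₂)` in `N = 2 + r` variables, `r = |ι|`, where `X_{d,1}` is the set of the
`d`-jets `φ` with `F(φ) = t^d` modulo `t^(d + 1)`: `Z = L^(2 + r) Z_I L⁻¹ / (1 - L⁻¹ T)`, where
`Z_I = L⁻² Z'` is the motivic zeta function of the ideal `I = (f_j)` of `ℂ[x₁, x₂]`, see
`PlaneMot`. -/
def PlaneJetMot {M : Type} [CommRing M] {ι : Type} [Fintype ι] (L : Mˣ)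
    (f : ι → MvPolynomial (Fin 2) ℂ) (Z : PowerSeries M) : Prop :=
  ∃ Z' : PowerSeries M, PlaneMot L f Z' ∧
    Z = PowerSeries.C (((L ^ (2 + Fintype.card ι) : Mˣ) : M) * ((L⁻¹ ^ 2 : Mˣ) : M) *
      ((L⁻¹ : Mˣ) : M)) * Z' * geo L 1 1

/-- **The motivic monodromy conjecture for `F = ∑ y_j f_j(x₁, x₂)`.** Let `f_j` be polynomials in
two variables, not all zero, let `b` be a polynomial which satisfies a functional equation
`b(s) F ^ s = P(s) F ^ (s + 1)` (in particular the Bernstein-Sato polynomial of `F`), and let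
`Z ∈ M⟦T⟧` be the motivic zeta function of `F`. Then `Z` lies in the ring `M[T][(1 - L⁻ⁿ Tᵃ)⁻¹]`,
where the pairs `a, n ≥ 1` are such that `-n/a` is a root of `b`. By the theorem of Malgrange and
Kashiwara (not formalised), `exp(-2 π i n / a)` is then a monodromy eigenvalue of `F`. -/
theorem result {M : Type} [CommRing M] (L : Mˣ) {ι : Type} [Fintype ι]
    (f : ι → MvPolynomial (Fin 2) ℂ) (hf : ∃ j, f j ≠ 0) (b : Polynomial ℂ)
    (hb : IsBFunction (univ f) b) (Z : PowerSeries M) (hZ : PlaneJetMot L f Z) :
    Z ∈ DenRing L (RootPair b) := by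
  classical
  obtain ⟨Z', hZ', rfl⟩ := hZ
  exact form_mot L f hf b hb Z' hZ' _

end Pool.Agent.Results.MP_432c1b_ag.PlaneForms
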